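import Mathlib
import Pool.Agent.V11312.SqrtSet

set_option autoImplicit false

namespace Pool.Agent.Results.MP_52e7c8_nt.NoWeakDarboux

open Pool.Agent.V11312

/-- `μ` is an upper quasi-density on the set `H` of integers. A function on the power set of `H`
is represented by a function on all sets of integers, all of whose axioms concern subsets of
`H`. -/
structure IsUpperQuasiDensity (H : Set ℤ) (μ : Set ℤ → ℝ) : Prop where
  /-- (F1) -/
  total : μ H = 1
  /-- (F3) -/
  subadd : ∀ X Y : Set ℤ, X ⊆ H → Y ⊆ H → μ (X ∪ Y) ≤ μ X + μ Y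
  /-- (F4 flat) -/
  affine : ∀ X : Set ℤ, X ⊆ H → ∀ k h : ℕ, 1 ≤ k → 1 ≤ h →
    μ ((fun x : ℤ => (k : ℤ) * x + (h : ℤ)) '' X) = 1 / (k : ℝ) * μ X
  /-- values are at most one -/
  le_one : ∀ X : Set ℤ, X ⊆ H → μ X ≤ 1

/-- the domain of the quasi-density induced by the upper quasi-density `μ` on `H` -/
def domain (H : Set ℤ) (μ : Set ℤ → ℝ) : Set (Set ℤ) :=
  {X : Set ℤ | X ⊆ H ∧ μ X + μ (H \ X) = 1}

/-- the two special sets -/
def G (H : Set ℤ) : Bool → Set ℤ
  | true => H ∩ Es 0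
  | false => H \ Es 0

theorem not_mem_Es_zero {x : ℤ} (h : x ∉ Es 0) : x ∈ Es 1 := by
  have h' : ¬ Nat.sqrt x.toNat % 2 = 0 := h
  show Nat.sqrt x.toNat % 2 = 1
  omega

theorem D_G (H : Set ℤ) (i : Bool) : D (G H i) ≤ 1 / 2 := by
  have key : ∀ ε : ℕ, ε ≤ 1 → D (Es ε) ≤ 1 / 2 := by
    intro ε hε
    have h1 := D_Es ε hε 0 (m := 1) le_rfl
    have h2 : Es ε ∩ AP 0 1 = Es ε := by
      apply Set.inter_eq_self_of_subset_left
      intro x _
      show ((1 : ℕ) : ℤ) ∣ x - 0
      simp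
    rw [h2] at h1
    simpa using h1
  cases i
  · refine (D_mono ?_).trans (key 1 le_rfl)
    intro x hx
    exact not_mem_Es_zero hx.2
  · exact (D_mono Set.inter_subset_right).trans (key 0 (by norm_num))

theorem G_consecutive (H : Set ℤ) (hpos : ∀ x : ℤ, 1 ≤ x → x ∈ H) (i : Bool) :
    ∃ g : ℤ, g ∈ G H i ∧ g + 1 ∈ G H i := by
  cases i
  · refine ⟨1, ⟨hpos _ (by norm_num), ?_⟩, ⟨hpos _ (by norm_num), ?_⟩⟩
    · exact parity_ne (ε := 0) (s := 1) (by norm_num) (by norm_num) (by norm_num)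
    · exact parity_ne (ε := 0) (s := 1) (by norm_num) (by norm_num) (by norm_num)
  · refine ⟨4, ⟨hpos _ (by norm_num), ?_⟩, ⟨hpos _ (by norm_num), ?_⟩⟩
    · exact mem_Es_of_block (ε := 0) (s := 2) (by norm_num) (by norm_num) (by norm_num)
    · exact mem_Es_of_block (ε := 0) (s := 2) (by norm_num) (by norm_num) (by norm_num)

theorem special_sub (H : Set ℤ) (hpos : ∀ x : ℤ, 1 ≤ x → x ∈ H) (i : Bool) (a : ℕ) (c : ℤ)
    (ha : 1 ≤ a) (hsub : aff (a : ℤ) c (G H i) ⊆ H ∩ Es 0) :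
    aff (a : ℤ) c (G H i) = H ∩ Es 0 := by
  cases i
  · exfalso
    have := affine_in_Es (ε := 1) le_rfl (X := G H false) (a := a) (c := c) (by
      intro x hx1 hx2
      refine ⟨hpos x hx1, fun h0 => ?_⟩
      have h3 : Nat.sqrt x.toNat % 2 = 0 := h0
      have h4 : Nat.sqrt x.toNat % 2 = 1 := hx2
      omega) ha (hsub.trans Set.inter_subset_right)
    omega
  · obtain ⟨_, rfl, rfl⟩ := affine_in_Es (ε := 0) (by norm_num) (X := G H true) (a := a) (c := c)
      (fun x hx1 hx2 => ⟨hpos x hx1, hx2⟩) ha (hsub.trans Set.inter_subset_right)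
    ext x
    constructor
    · rintro ⟨y, hy, rfl⟩
      have : ((1 : ℕ) : ℤ) * y + 0 = y := by push_cast; ring
      show ((1 : ℕ) : ℤ) * y + 0 ∈ H ∩ Es 0
      rw [this]; exact hy
    · intro hx
      exact ⟨x, hx, by push_cast; ring⟩

/-- `D Y ≤ B Y / 2` for subsets of the special set -/
theorem D_le_half_B {Y : Set ℤ} (hY : Y ⊆ Es 0) : D Y ≤ B Y / 2 := by
  have key : ∀ L : List (ℤ × ℕ), (∀ p ∈ L, 1 ≤ p.2) → D (Es 0 ∩ U L) ≤ wt L / 2 := by
    intro L
    induction L with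
    | nil =>
      intro _
      have : Es 0 ∩ U [] = ∅ := by ext x; simp [U]
      rw [this, D_empty]
      simp [wt]
    | cons p L ih =>
      intro hL
      have h1 : Es 0 ∩ U (p :: L) = (Es 0 ∩ AP p.1 p.2) ∪ (Es 0 ∩ U L) := by
        ext x
        constructor
        · rintro ⟨hxE, q, hq, hx⟩
          rcases List.mem_cons.mp hq with rfl | hq
          · exact Or.inl ⟨hxE, hx⟩
          · exact Or.inr ⟨hxE, q, hq, hx⟩
        · rintro (⟨hxE, hx⟩ | ⟨hxE, q, hq, hx⟩)
          · exact ⟨hxE, p, List.mem_cons_self, hx⟩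
          · exact ⟨hxE, q, List.mem_cons_of_mem _ hq, hx⟩
      rw [h1]
      refine (D_union _ _).trans ?_
      have h2 := ih (fun q hq => hL q (List.mem_cons_of_mem _ hq))
      have h3 := D_Es 0 (by norm_num) p.1 (hL p List.mem_cons_self)
      have h4 : 1 / (2 * (p.2 : ℝ)) = 1 / (p.2 : ℝ) / 2 := by
        rw [div_div, mul_comm]
      rw [h4] at h3
      unfold wt at h2 ⊢
      simp only [List.map_cons, List.sum_cons]
      linarith
  have h1 : 2 * D Y ≤ B Y := by
    apply le_B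
    intro L hL
    have h2 : Y ⊆ Es 0 ∩ U L := fun x hx => ⟨hY hx, hL.2 hx⟩
    have h3 := (D_mono h2).trans (key L hL.1)
    linarith
  linarith

/-- For each of the three choices of `H` there is an upper quasi-density `μ` on `H` for which the
induced quasi-density fails the weak Darboux property. -/
theorem result : ∀ H : Set ℤ, (H = Set.univ ∨ H = {x : ℤ | 0 ≤ x} ∨ H = {x : ℤ | 1 ≤ x}) →
    ∃ μ : Set ℤ → ℝ, IsUpperQuasiDensity H μ ∧ ∃ X ∈ domain H μ, ∃ a : ℝ, 0 ≤ a ∧ a ≤ μ X ∧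
      ∀ Y ∈ domain H μ, Y ⊆ X → μ Y ≠ a := by
  intro H hH
  have hpos : ∀ x : ℤ, 1 ≤ x → x ∈ H := by
    intro x hx
    rcases hH with rfl | rfl | rfl
    · trivial
    · show 0 ≤ x; omega
    · exact hx
  set w : Bool → ℝ := fun _ => 1 / 2 with hwdef
  have hw : ∀ i, 0 ≤ w i := fun _ => by rw [hwdef]; norm_num
  have hD : ∀ i, D (G H i) ≤ w i := D_G H
  have hDH : D H = 1 := D_full hpos
  -- values on the two special sets
  have haff : ∀ X : Set ℤ, aff 1 0 X = X := by
    intro X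
    ext x
    constructor
    · rintro ⟨y, hy, rfl⟩
      show (1 : ℤ) * y + 0 ∈ X
      rw [one_mul, add_zero]; exact hy
    · intro hx
      exact ⟨x, hx, by ring⟩
  have hle : ∀ i, hull (G H) w (G H i) ≤ 1 / 2 := by
    intro i
    have := hull_special (G H) (w := w) hw i 0
    rwa [haff] at this
  have hsplit : ∀ Y : Set ℤ, Y ⊆ H → 1 ≤ D Y + D (H \ Y) := by
    intro Y hY
    rw [← hDH]
    have : H = Y ∪ (H \ Y) := (Set.union_sdiff_cancel hY).symm
    conv_lhs => rw [this]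
    exact D_union _ _
  have hcompl : H \ (H ∩ Es 0) = G H false := by
    show H \ (H ∩ Es 0) = H \ Es 0
    exact Set.sdiff_self_inter
  have h1 : hull (G H) w (H ∩ Es 0) ≤ 1 / 2 := hle true
  have h2 : hull (G H) w (H \ (H ∩ Es 0)) ≤ 1 / 2 := by rw [hcompl]; exact hle false
  have h3 := hsplit (H ∩ Es 0) Set.inter_subset_left
  have h4 := D_le_hull (G H) hD (H ∩ Es 0)
  have h5 := D_le_hull (G H) hD (H \ (H ∩ Es 0))
  have hval : hull (G H) w (H ∩ Es 0) = 1 / 2 := by linarith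
  refine ⟨hull (G H) w, ⟨?_, ?_, ?_, ?_⟩, H ∩ Es 0, ⟨Set.inter_subset_left, by linarith⟩, 1 / 4,
    by norm_num, by rw [hval]; norm_num, ?_⟩
  · exact hull_full (G H) hw hD hpos
  · intro X Y _ _
    exact hull_union (G H) hw X Y
  · intro X _ k h hk _
    exact hull_affine (G H) hw (G_consecutive H hpos) X hk h
  · intro X _
    exact hull_le_one (G H) hw X
  · rintro Y ⟨hYH, hYdom⟩ hYX hYa
    by_cases hYe : Y = H ∩ Es 0
    · rw [hYe, hval] at hYa
      norm_num at hYa
    · have hB : hull (G H) w Y = B Y := by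
        apply hull_eq_B (G H) hw
        intro i a c ha hsub
        have h6 := special_sub H hpos i a c ha (hsub.trans hYX)
        apply hYe
        apply Set.Subset.antisymm hYX
        rw [← h6]
        exact hsub
      have h6 := hsplit Y hYH
      have h7 := D_le_hull (G H) hD Y
      have h8 := D_le_hull (G H) hD (H \ Y)
      have h9 := D_le_half_B (hYX.trans Set.inter_subset_right)
      have h10 := B_nonneg Y
      linarith

end Pool.Agent.Results.MP_52e7c8_nt.NoWeakDarboux
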